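import Mathlib
import Pool.Agent.V11147.IcE

/-!
# MP_710d87_nt: every icube in `ℤ⁸` extends to an 8-icube
-/

namespace Pool.Agent.Results.MP_710d87_nt.AllExtend

open Matrix

/-- `A = (v₁ | … | v_k)` is a `k`-icube in `ℤⁿ` of norm `lam`: its columns are pairwise orthogonal
integer vectors, all of squared length `lam > 0`. -/
def IsIcube {n k : ℕ} (lam : ℤ) (A : Matrix (Fin n) (Fin k) ℤ) : Prop :=
  1 ≤ k ∧ k ≤ n ∧ 0 < lam ∧ Aᵀ * A = lam • (1 : Matrix (Fin k) (Fin k) ℤ)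

/-- `A` extends to `B`: some of the columns of `B` form `A`. -/
def ExtendsTo {n l k : ℕ} (A : Matrix (Fin n) (Fin l) ℤ) (B : Matrix (Fin n) (Fin k) ℤ) : Prop :=
  ∃ f : Fin l ↪ Fin k, ∀ t i, B t (f i) = A t i

/-- For every `1 ≤ k ≤ 8`, every `k`-icube in `ℤ⁸` extends to an `8`-icube (of the same norm). -/
theorem result : ∀ (k : ℕ) (lam : ℤ) (A : Matrix (Fin 8) (Fin k) ℤ), IsIcube lam A →
    ∃ B : Matrix (Fin 8) (Fin 8) ℤ, IsIcube lam B ∧ ExtendsTo A B := by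
  rintro k lam A ⟨h1, h8, hlam, hA⟩
  have hv : ∀ i j, (fun t => A t i) ⬝ᵥ (fun t => A t j) = if i = j then lam else 0 := by
    intro i j
    have h2 := congrFun (congrFun hA i) j
    rw [Matrix.smul_apply, Matrix.one_apply] at h2
    rw [show (fun t => A t i) ⬝ᵥ (fun t => A t j) = (Aᵀ * A) i j from rfl, h2]
    split_ifs <;> simp
  obtain ⟨w, hw, hwv⟩ := Pool.Agent.V11147.IcE.extend (8 - k) k h8 (by omega) h1 lam hlam
    (fun i t => A t i) hv
  refine ⟨Matrix.of fun t i => w i t, ⟨by norm_num, le_rfl, hlam, ?_⟩,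
    ⟨⟨Fin.castLE h8, Fin.castLE_injective h8⟩, fun t i => ?_⟩⟩
  · ext i j
    rw [Matrix.smul_apply, Matrix.one_apply]
    rw [show ((Matrix.of fun t i => w i t)ᵀ * (Matrix.of fun t i => w i t) :
      Matrix (Fin 8) (Fin 8) ℤ) i j = w i ⬝ᵥ w j from rfl, hw]
    split_ifs <;> simp
  · show w (Fin.castLE h8 i) t = A t i
    rw [hwv i]

end Pool.Agent.Results.MP_710d87_nt.AllExtend
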